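import Pool.Agent.Run7.h380.IN.Count

/-!
# The Bodirsky-Pinsker dichotomy for almost all injective templates

Let `𝔹` be an infinite homogeneous structure in a finite relational signature such that its
automorphism group `G` has no finite orbits on the elements of `𝔹`. An injective relation is a
`G`-invariant relation all of whose tuples have pairwise distinct entries: a set of orbits of
injective tuples. Templates of injective relations are for instance the ordering CSPs (sets of
linear orders of the `k` variables of a constraint), the problems given by sets of labelled graphs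
on `k` vertices (for the random graph) and the problems of phylogeny type. They form a vanishing
proportion of all the `G`-invariant templates. The earlier proofs for almost all templates
identify variables, which is impossible here: in the case of `(ℚ, <)` for instance all the injective
relations are preserved by the lexicographic order embeddings `ℚ² → ℚ`, so that there are always
essential polymorphisms.

All but a doubly exponentially small proportion of the injective relations of arity `k` satisfy:
every template consisting of this relation and finitely many injective relations of arity at most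
`r` is

* trivial: there are arbitrarily large totally symmetric sets (all injective tuples of the same
  length are in the same orbit) all of whose injective tuples satisfy all the nonempty relations, or
* as hard as possible: all the injective `G`-invariant relations of arity at most `r` are
  pp-definable, and the template pp-constructs `K_3`.

The first case never occurs if `G` preserves a linear order (or a tournament). The same holds for
random relations of several arities between `n` and `n'` with a joint law of finite energy `ε`.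
-/

namespace Pool.Agent.Results.MP_6ab439_lc.InjectiveTemplates

open Pool.Agent.W994.AR
open Pool.Agent.N455.CS (IsLaw prob FiniteEnergy)
open Run7.h380.IN (IOmega irel InjDichotomy InjRel Triv)

theorem result {B σ : Type} [Infinite B] [Finite σ] {arB : σ → ℕ} (𝔹 : Str σ arB B)
    (h𝔹 : Homogeneous 𝔹) (horb : ∀ b : B, {x | ∃ g ∈ autGroup 𝔹, g b = x}.Infinite) :
    -- the templates are reducts of homogeneous, finitely bounded structures
    (∀ (ι : Type) [Finite ι] (ar : ι → ℕ) (Γ : Str ι ar B), (∀ l, Invar (autGroup 𝔹) (Γ l)) →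
      Homogeneous (expand 𝔹 Γ) ∧ (FinitelyBounded 𝔹 → FinitelyBounded (expand 𝔹 Γ))) ∧
    -- the constraint satisfaction problem of a trivial injective template
    (∀ (ι : Type) (ar : ι → ℕ) (𝔸 : Str ι ar B), Triv (autGroup 𝔹) 𝔸 →
      (∀ l, ∀ u ∈ 𝔸 l, Function.Injective u) → ∀ (X : Type) [Finite X] (𝕏 : Str ι ar X),
        (∃ f : X → B, ∀ i, ∀ v ∈ 𝕏 i, (fun j => f (v j)) ∈ 𝔸 i) ↔
          ∀ i, ∀ v ∈ 𝕏 i, Function.Injective v ∧ (𝔸 i).Nonempty) ∧
    -- no template is trivial if a linear order or a tournament is preserved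
    ((∃ L : B → B → Prop, (∀ x y, x ≠ y → (L x y ↔ ¬ L y x)) ∧
        ∀ g ∈ autGroup 𝔹, ∀ x y, L x y ↔ L (g x) (g y)) →
      ∀ (ι : Type) (ar : ι → ℕ) (𝔸 : Str ι ar B), ¬ Triv (autGroup 𝔹) 𝔸) ∧
    -- random injective relations
    (∀ r : ℕ, ∃ N : ℕ, 0 < N ∧
      ∀ (t : ℕ) (k : Fin t → ℕ) (n n' : ℕ), N ≤ n → (∀ j, n ≤ k j ∧ k j ≤ n') →
        (∀ Θ j, Invar (autGroup 𝔹) (irel (autGroup 𝔹) k Θ j) ∧
          ∀ u ∈ irel (autGroup 𝔹) k Θ j, Function.Injective u) ∧
        ∀ ε : ℝ, 0 ≤ ε → ε ≤ 1 → ∀ μ : Set (IOmega (autGroup 𝔹) k) → ℝ, IsLaw μ →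
          FiniteEnergy ε μ →
          prob μ (fun Θ => ¬ InjDichotomy (autGroup 𝔹) r (irel (autGroup 𝔹) k Θ)) ≤
            t * (2 ^ (N * n' ^ N) * (1 - ε ^ N) ^ (2 ^ (n / N)))) ∧
    -- the number of exceptions
    (∀ r : ℕ, ∃ N : ℕ, 0 < N ∧ ∀ k : ℕ, N ≤ k →
      Finite (InjRel (autGroup 𝔹) k) ∧
      (Nat.card {R : InjRel (autGroup 𝔹) k //
        ¬ InjDichotomy (autGroup 𝔹) r (t := 1) (k := fun _ => k) (fun _ => R.1)} : ℝ) ≤
        2 ^ (N * k ^ N) * (1 - (2⁻¹ : ℝ) ^ N) ^ (2 ^ (k / N)) *
          Nat.card (InjRel (autGroup 𝔹) k)) := by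
  refine ⟨?_, ?_, ?_, ?_, ?_⟩
  · intro ι _ ar Γ hΓ
    exact ⟨homogeneous_expand h𝔹 _ hΓ, fun h => finitelyBounded_expand h𝔹 h _ hΓ⟩
  · intro ι ar 𝔸 h hinj X _ 𝕏
    exact Run7.h380.IN.triv_csp h hinj X 𝕏
  · rintro ⟨L, h1, h2⟩ ι ar 𝔸
    exact Run7.h380.IN.not_triv_of_order L h1 h2
  · intro r
    obtain ⟨N, hN, h⟩ := Run7.h380.IN.law_bound 𝔹 h𝔹 horb r
    refine ⟨N, hN, ?_⟩
    intro t k n n' hn hk
    exact ⟨fun Θ j => ⟨Run7.h380.IN.irel_invar _ k Θ j, Run7.h380.IN.irel_inj _ k Θ j⟩,
      fun ε hε hε1 μ hμ hFE => h t k n n' hn hk ε hε hε1 μ hμ hFE⟩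
  · exact Run7.h380.IN.count_bound 𝔹 h𝔹 horb

end Pool.Agent.Results.MP_6ab439_lc.InjectiveTemplates
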