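import Pool.Agent.Run7.h380.SY.Main

/-!
# The Bodirsky-Pinsker dichotomy for almost all templates with symmetric relations

Let `𝔹` be a homogeneous structure in a finite relational signature and `G` its automorphism group.
We consider relations of a large arity `k` which are invariant under `G` and under a given group `H`
of permutations of the coordinates, for instance all symmetric relations (`H` the full symmetric
group) or all cyclic ones. They form a vanishing proportion of all `G`-invariant relations (for a
two element structure there are `2 ^ (2 ^ k)` relations and `2 ^ (k + 1)` symmetric ones), so nothing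
follows for them from the theorems about almost all relations. All but an exponentially small
proportion of them satisfy the dichotomy in the strongest form, together with ALL the invariant
relations of arity at most `r`: every template that contains the relation and whose other relations
have arity at most `r` has a constant endomorphism, or pp-defines all the invariant relations and
pp-constructs `K_3`.

The same is proved for random relations: `E j` is any equivalence relation on the tuples of length
`k j` between the orbit equivalence and the orbit equivalence up to permutations of the coordinates,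
and the random relations are unions of classes of `E j` with a joint law of finite energy `ε` (every
class belongs to the relation with conditional probability between `ε` and `1 - ε`, given all
the others); `ε` may tend to zero like a small power of the arity.
-/

namespace Pool.Agent.Results.MP_6ab439_lc.SymmetricTemplates

open Pool.Agent.W994.AR
open Pool.Agent.N455.CS (IsLaw prob FiniteEnergy)
open Run7.h380.SY (Classes relOf SameUpToPerm SymRel Dichotomy)

theorem result {B σ : Type} [Nontrivial B] [Finite σ] {arB : σ → ℕ} (𝔹 : Str σ arB B)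
    (h𝔹 : Homogeneous 𝔹) :
    -- the templates are reducts of homogeneous, finitely bounded structures
    (∀ (ι : Type) [Finite ι] (ar : ι → ℕ) (Γ : Str ι ar B), (∀ l, Invar (autGroup 𝔹) (Γ l)) →
      Homogeneous (expand 𝔹 Γ) ∧ (FinitelyBounded 𝔹 → FinitelyBounded (expand 𝔹 Γ))) ∧
    -- templates with a constant endomorphism are trivial
    (∀ (ι : Type) (ar : ι → ℕ) (𝔸 : Str ι ar B), ConstEndo 𝔸 → ¬ PPConstructsK3 𝔸 ∧
      ∀ (X : Type) (𝕏 : Str ι ar X),
        (∃ f : X → B, ∀ i, ∀ v ∈ 𝕏 i, (fun j => f (v j)) ∈ 𝔸 i) ↔
          ∀ i, (𝕏 i).Nonempty → (𝔸 i).Nonempty) ∧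
    -- random relations with symmetries
    (∀ r : ℕ, ∃ N Q : ℕ, 0 < N ∧ 0 < Q ∧
      ∀ (t : ℕ) (k : Fin t → ℕ) (n : ℕ), (∀ j, n ≤ k j) →
      ∀ E : ∀ j, Setoid (Fin (k j) → B),
        (∀ j u v, Same (autGroup 𝔹) u v → (E j).r u v) →
        (∀ j u v, (E j).r u v → SameUpToPerm (autGroup 𝔹) u v) →
        (∀ Θ j, Invar (autGroup 𝔹) (relOf k E Θ j)) ∧
        ∀ ε : ℝ, 0 ≤ ε → ε ≤ 1 → ∀ μ : Set (Classes k E) → ℝ, IsLaw μ → FiniteEnergy ε μ →
          prob μ (fun Θ => ¬ Dichotomy 𝔹 r (relOf k E Θ)) ≤
            t * (N * (1 - ε ^ N) ^ (n / Q))) ∧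
    -- the number of exceptions among the relations with a prescribed group of symmetries
    (∀ r : ℕ, ∃ N Q : ℕ, 0 < N ∧ 0 < Q ∧
      ∀ (k : ℕ) (H : Subgroup (Equiv.Perm (Fin k))),
        Finite (SymRel (autGroup 𝔹) H) ∧
        (Nat.card {R : SymRel (autGroup 𝔹) H //
          ¬ Dichotomy 𝔹 r (t := 1) (k := fun _ => k) (fun _ => R.1)} : ℝ) ≤
          N * (1 - (2⁻¹ : ℝ) ^ N) ^ (k / Q) * Nat.card (SymRel (autGroup 𝔹) H)) := by
  refine ⟨?_, ?_, ?_, ?_⟩
  · intro ι _ ar Γ hΓ
    exact ⟨homogeneous_expand h𝔹 _ hΓ, fun h => finitelyBounded_expand h𝔹 h _ hΓ⟩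
  · intro ι ar 𝔸 h
    exact ⟨not_k3_of_const h, fun X 𝕏 => const_csp h X 𝕏⟩
  · intro r
    obtain ⟨N, Q, hN, hQ, h⟩ := Run7.h380.SY.law_bound 𝔹 h𝔹 r
    refine ⟨N, Q, hN, hQ, ?_⟩
    intro t k n hn E hE1 hE2
    exact ⟨fun Θ j => Run7.h380.SY.invar_relOf k E hE1 Θ j,
      fun ε hε hε1 μ hμ hFE => h t k n hn E hE1 hE2 ε hε hε1 μ hμ hFE⟩
  · exact Run7.h380.SY.count_bound 𝔹 h𝔹

end Pool.Agent.Results.MP_6ab439_lc.SymmetricTemplates
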